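import Pool.Agent.Lib.MP_65983e_an.Final

/-!
# A cofinally (hence guarded) Fraisse Banach space that is not omega-categorical

Over each of the fields `ℝ` and `ℂ` there is a separable infinite-dimensional Banach space which
is cofinally Fraisse and guarded Fraisse but not omega-categorical.
-/

set_option autoImplicit false

namespace Pool.Agent.Results.MP_65983e_an.NotOmegaCategorical

open Pool.Agent.MP_65983e_an

theorem result (𝕜 : Type) [RCLike 𝕜] :
    ∃ (X : Type) (_ : NormedAddCommGroup X) (_ : NormedSpace 𝕜 X),
      CompleteSpace X ∧ TopologicalSpace.SeparableSpace X ∧ ¬ FiniteDimensional 𝕜 X ∧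
      CofinallyFraisse 𝕜 X ∧ GuardedFraisse 𝕜 X ∧ ¬ OmegaCategorical 𝕜 X :=
  ⟨XX 𝕜, inferInstance, inferInstance, inferInstance, separable, not_finiteDimensional,
    cofinallyFraisse, cofinallyFraisse.guarded, not_omega⟩

end Pool.Agent.Results.MP_65983e_an.NotOmegaCategorical
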